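import Pool.Agent.H7.GT.Stmts

/-!
Row DBL (MP_fd41b2_co): double counting of pairs `S ⊆ L`.
-/

set_option autoImplicit false

open Finset

namespace Pool.GT7

open Pool.Agent.H23.KT Pool.Agent.H46.KW Pool.KQ

lemma DBL_above {V : Type} [DecidableEq V] (G : SimpleGraph V) (X S : Finset V) (b j : ℕ)
    (hj : j ≤ b) (hS : S ⊆ X) (hc : S.card = j) (hcl : G.IsClique (S : Set V)) :
    kc G (cn G X S) (b - j) = ((clq G X b).filter (fun L => S ⊆ L)).card := by
  rw [kc_eq]
  symm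
  refine card_bij' (fun L _ => L \ S) (fun T _ => S ∪ T) ?_ ?_ ?_ ?_
  · intro L hL
    rw [mem_filter, mem_clq] at hL
    obtain ⟨⟨h1, h2, h3⟩, h4⟩ := hL
    rw [mem_clq]
    refine ⟨?_, ?_, ?_⟩
    · intro v hv
      rw [mem_sdiff] at hv
      rw [mem_cn]
      refine ⟨h1 hv.1, fun s hs => ?_⟩
      exact h3 (mem_coe.2 (h4 hs)) (mem_coe.2 hv.1) (fun e => hv.2 (e ▸ hs))
    · have := card_sdiff_add_card_eq_card h4
      omega
    · exact h3.subset (by
        intro y hy
        exact mem_coe.2 (mem_sdiff.1 (mem_coe.1 hy)).1)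
  · intro T hT
    rw [mem_clq] at hT
    obtain ⟨h1, h2, h3⟩ := hT
    have hd : Disjoint S T := by
      rw [disjoint_left]
      intro v hv hv'
      exact G.loopless.irrefl v ((mem_cn.1 (h1 hv')).2 v hv)
    rw [mem_filter, mem_clq]
    refine ⟨⟨?_, ?_, ?_⟩, subset_union_left⟩
    · exact union_subset hS (h1.trans (cn_subset X S))
    · rw [card_union_of_disjoint hd]
      omega
    · intro x hx y hy hxy
      rcases mem_union.1 (mem_coe.1 hx) with hx | hx
      · rcases mem_union.1 (mem_coe.1 hy) with hy | hy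
        · exact hcl (mem_coe.2 hx) (mem_coe.2 hy) hxy
        · exact (mem_cn.1 (h1 hy)).2 x hx
      · rcases mem_union.1 (mem_coe.1 hy) with hy | hy
        · exact ((mem_cn.1 (h1 hx)).2 y hy).symm
        · exact h3 (mem_coe.2 hx) (mem_coe.2 hy) hxy
  · intro L hL
    rw [mem_filter] at hL
    exact union_sdiff_of_subset hL.2
  · intro T hT
    rw [mem_clq] at hT
    have hd : Disjoint S T := by
      rw [disjoint_left]
      intro v hv hv'
      exact G.loopless.irrefl v ((mem_cn.1 (hT.1 hv')).2 v hv)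
    change (S ∪ T) \ S = T
    rw [union_sdiff_left]
    exact sdiff_eq_self_of_disjoint hd.symm

lemma DBL_below {V : Type} [DecidableEq V] (G : SimpleGraph V) (X L : Finset V) (z : V) (j : ℕ)
    (hL : L ⊆ X) (hcl : G.IsClique (L : Set V)) :
    ((clq G (nb G X z) j).filter (fun S => S ⊆ L)).card = (nb G L z).card.choose j := by
  rw [← card_powersetCard]
  congr 1
  ext S
  rw [mem_filter, mem_clq, mem_powersetCard]
  constructor
  · rintro ⟨⟨h1, h2, -⟩, h4⟩
    refine ⟨fun v hv => ?_, h2⟩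
    rw [mem_nb]
    exact ⟨h4 hv, ((mem_nb G).1 (h1 hv)).2⟩
  · rintro ⟨h1, h2⟩
    have h3 : S ⊆ L := h1.trans (nb_subset G L z)
    refine ⟨⟨fun v hv => ?_, h2, hcl.subset (by
      intro y hy
      exact mem_coe.2 (h3 (mem_coe.1 hy)))⟩, h3⟩
    rw [mem_nb]
    exact ⟨hL (h3 hv), ((mem_nb G).1 (h1 hv)).2⟩

lemma DBL_nat {V : Type} [DecidableEq V] (G : SimpleGraph V) (X : Finset V) (z : V) (b j : ℕ)
    (hj : j ≤ b) :
    ∑ S ∈ clq G (nb G X z) j, kc G (cn G X S) (b - j) =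
      ∑ L ∈ clq G X b, (nb G L z).card.choose j := by
  have h1 : ∑ S ∈ clq G (nb G X z) j, kc G (cn G X S) (b - j) =
      ∑ S ∈ clq G (nb G X z) j, ((clq G X b).filter (fun L => S ⊆ L)).card := by
    refine sum_congr rfl fun S hS => ?_
    rw [mem_clq] at hS
    exact DBL_above G X S b j hj (hS.1.trans (nb_subset G X z)) hS.2.1 hS.2.2
  have h2 : ∑ L ∈ clq G X b, (nb G L z).card.choose j =
      ∑ L ∈ clq G X b, ((clq G (nb G X z) j).filter (fun S => S ⊆ L)).card := by
    refine sum_congr rfl fun L hL => ?_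
    rw [mem_clq] at hL
    exact (DBL_below G X L z j hL.1 hL.2.2).symm
  rw [h1, h2]
  simp only [card_filter]
  exact sum_comm

theorem DBL_thm (hGRD : GRDStmt) : DBLStmt := by
  intro V _ G p a e P he he1 hP hlo hmis z j hj
  have h1 : ∑ S ∈ clq G (nb G (un P) z) j, (kc G (cn G (un P) S) (p + 3 - j) : ℝ) =
      ∑ L ∈ clq G (un P) (p + 3), ((nb G L z).card.choose j : ℝ) := by
    have := DBL_nat G (un P) z (p + 3) j hj
    exact_mod_cast this
  refine ⟨h1, ?_⟩
  rw [← h1]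
  have h2 : ∀ S ∈ clq G (nb G (un P) z) j,
      (1 - 1 / (32 * ((p : ℝ) + 3))) * (a : ℝ) ^ (p + 3 - j) ≤
        (kc G (cn G (un P) S) (p + 3 - j) : ℝ) := by
    intro S hS
    rw [mem_clq] at hS
    obtain ⟨hS1, hS2, hS3⟩ := hS
    have h3 := hGRD G p a e P he he1 hP hlo hmis S j (p + 3 - j)
      (hS1.trans (nb_subset G _ z)) (fun i => ?_) hS2 (by omega)
    · rw [Nat.choose_self, Nat.cast_one, one_mul] at h3
      exact h3
    · rw [card_le_one]
      intro x hx y hy
      rw [mem_inter] at hx hy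
      by_contra hxy
      exact hP.ind i x hx.2 y hy.2 (hS3 (mem_coe.2 hx.1) (mem_coe.2 hy.1) hxy)
  have h4 := sum_le_sum h2
  rw [sum_const, nsmul_eq_mul, ← kc_eq] at h4
  calc (1 - 1 / (32 * ((p : ℝ) + 3))) * ((a : ℝ) ^ (p + 3 - j) * kc G (nb G (un P) z) j)
      = (kc G (nb G (un P) z) j : ℝ) *
        ((1 - 1 / (32 * ((p : ℝ) + 3))) * (a : ℝ) ^ (p + 3 - j)) := by ring
    _ ≤ _ := h4

end Pool.GT7
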